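import Pool.Agent.H51.ERA.Stmts
import Pool.Agent.H51.ERA.Base

/-!
MP_e0047e_lc, board `era`, module HFA: the root case of the hybrid argument.
-/

set_option autoImplicit false

namespace Pool.Agent.H74.ERA

open Pool.Agent.H51.ERA

/-- the bits at level zero -/
theorem ty_zero (s t : ℕ) (b : ℕ → Bool) (x : ℕ) (hx : x < t) :
    ty s t b (lam s + x) = if b x then 1 else 0 := by
  have hlt : lam s + x < gg s t := by unfold gg; omega
  have hmod : (lam s + x) % gg s t = lam s + x := Nat.mod_eq_of_lt hlt
  unfold ty
  rw [hmod, if_pos ⟨by omega, by omega⟩, if_pos hlt]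
  have : lam s + x - lam s = x := by omega
  rw [this]

theorem bits_length (t : ℕ) (b : ℕ → Bool) : (bits t b).length = t := by
  simp [bits]

theorem bits_lt (t : ℕ) (b : ℕ → Bool) : ∀ τ ∈ bits t b, decide (τ < 2) = true := by
  intro τ hτ
  unfold bits at hτ
  rw [List.mem_map] at hτ
  obtain ⟨j, _, rfl⟩ := hτ
  by_cases h : b j = true
  · rw [if_pos h]; decide
  · rw [if_neg h]; decide

theorem HFA_thm (hARR : ARRStmt) (hHC1 : HC1Stmt) (hCNW : CNWStmt) (hFBV : FBVStmt) :
    HFAStmt := by
  intro N Q L rho sys hL s t b b' q K K' off m1 m2 m3 hK hK' hyK hyK' hlen hM hM' hms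
  have hfull : (K.map (kd s)).Perm (K'.map (kd s)) := by
    have h := hms K.length (by simp)
    rw [List.take_length] at h
    rw [hlen, List.take_length] at h
    exact h
  obtain ⟨B, hBp, hBk, hBm⟩ := hARR (Sg N) _ (kd s) [m1, m2, m3, m3 + 1, K.length] K K' hlen hms hfull
  have hfst : B.map Prod.fst = K.map Prod.fst := by
    have h := congrArg (List.map Prod.fst) hBk
    rw [List.map_map, List.map_map] at h
    exact h
  have hG : Good (yl B) := hL _ (sys.hyb q K K' B hK hK' hBp hfst)
  have hyp : (yl B).Perm (yl K') := yl_perm hBp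
  obtain ⟨c1, c2, c3, _⟩ := hCNW s t b'
  have hc : (yl B).count Ltr.dd = Fb t b' := by
    rw [hyp.count_eq, hyK', c2]
  have hvp : (vs (yl B)).Perm (vpart s t b') := by
    have h := vs_perm hyp
    rw [hyK', c1] at h
    exact h
  have hfl : ((vs (yl B)).filter (fun τ => decide (τ < 2))).length = t := by
    have h := (hvp.filter (fun τ => decide (τ < 2))).length_eq
    rw [c3, bits_length] at h
    exact h
  have hx := hHC1 s t b b' N K K' B 0 off m1 m2 m3 hyK hyK' hM hM' hBp hBk
    (fun m hm => hBm m (by
      simp only [List.mem_cons, List.not_mem_nil, or_false] at hm ⊢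
      tauto)) hG
  have hsl : ((vs (yl B)).take (lam s + t)).drop (lam s) = bits t b := by
    apply List.ext_getElem?
    intro x
    rw [List.getElem?_drop, List.getElem?_take]
    by_cases hxt : x < t
    · rw [if_pos (by omega)]
      have h := hx x hxt
      rw [Nat.zero_mul, Nat.zero_add] at h
      rw [h, ty_zero s t b x hxt]
      unfold bits
      rw [List.getElem?_map, List.getElem?_range hxt]
      rfl
    · rw [if_neg (by omega)]
      symm
      rw [List.getElem?_eq_none_iff, bits_length]
      omega
  have hsub : (bits t b).Sublist (vs (yl B)) := by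
    rw [← hsl]
    exact (List.drop_sublist _ _).trans (List.take_sublist _ _)
  have hsub2 : (bits t b).Sublist ((vs (yl B)).filter (fun τ => decide (τ < 2))) := by
    have h := hsub.filter (fun τ => decide (τ < 2))
    rw [List.filter_eq_self.2 (bits_lt t b)] at h
    exact h
  have heq : bits t b = (vs (yl B)).filter (fun τ => decide (τ < 2)) :=
    hsub2.eq_of_length (by rw [bits_length, hfl])
  have hF : F (vs (yl B)) = Fb t b := by
    rw [hFBV.1 (vs (yl B)), ← heq]
    rfl
  have := hG.cnt
  rw [hF, hc] at this
  exact this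

end Pool.Agent.H74.ERA
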